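import Mathlib
import Pool.Agent.H892.KT.Stm

set_option autoImplicit false

/-!
Proof of `Pool.Agent.H892.KT.S_JTAY`: the first term of the Taylor expansion of an analytic function of
two variables.
-/

open Filter Topology Set Asymptotics

namespace Pool.Agent.H280.KT

open Pool.Agent.H892.KT

/-- the restriction of a multilinear form to the diagonal is a homogeneous polynomial -/
theorem diag_hp (k : ℕ) (f : ContinuousMultilinearMap ℂ (fun _ : Fin k => ℂ × ℂ) ℂ) :
    ∃ c : ℕ → ℂ, ∀ y : ℂ × ℂ, (f fun _ => y) = hp k c y := by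
  classical
  refine ⟨fun j => ∑ s ∈ (Finset.univ : Finset (Finset (Fin k))).filter (fun s => s.card = j),
    f (s.piecewise (fun _ => ((1 : ℂ), (0 : ℂ))) (fun _ => ((0 : ℂ), (1 : ℂ)))), fun y => ?_⟩
  have h1 : (fun _ : Fin k => y) = (fun _ : Fin k => y.1 • ((1 : ℂ), (0 : ℂ))) +
      (fun _ : Fin k => y.2 • ((0 : ℂ), (1 : ℂ))) := by
    funext i
    simp
  have h2 : ∀ s : Finset (Fin k), f (s.piecewise (fun _ : Fin k => y.1 • ((1 : ℂ), (0 : ℂ)))
      (fun _ : Fin k => y.2 • ((0 : ℂ), (1 : ℂ)))) = (y.1 ^ s.card * y.2 ^ (k - s.card)) *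
        f (s.piecewise (fun _ => ((1 : ℂ), (0 : ℂ))) (fun _ => ((0 : ℂ), (1 : ℂ)))) := by
    intro s
    have e1 : s.piecewise (fun _ : Fin k => y.1 • ((1 : ℂ), (0 : ℂ)))
        (fun _ : Fin k => y.2 • ((0 : ℂ), (1 : ℂ))) =
        fun i => (s.piecewise (fun _ : Fin k => y.1) (fun _ => y.2) i) •
          (s.piecewise (fun _ => ((1 : ℂ), (0 : ℂ))) (fun _ => ((0 : ℂ), (1 : ℂ))) i) := by
      funext i
      by_cases hi : i ∈ s
      · rw [Finset.piecewise_eq_of_mem _ _ _ hi, Finset.piecewise_eq_of_mem _ _ _ hi,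
          Finset.piecewise_eq_of_mem _ _ _ hi]
      · rw [Finset.piecewise_eq_of_notMem _ _ _ hi, Finset.piecewise_eq_of_notMem _ _ _ hi,
          Finset.piecewise_eq_of_notMem _ _ _ hi]
    rw [e1, ContinuousMultilinearMap.map_smul_univ, smul_eq_mul]
    have e2 : ∏ i, s.piecewise (fun _ : Fin k => y.1) (fun _ => y.2) i =
        y.1 ^ s.card * y.2 ^ (k - s.card) := by
      rw [Finset.prod_piecewise, Finset.univ_inter, Finset.prod_const, Finset.prod_const,
        Finset.card_sdiff_of_subset (Finset.subset_univ s), Finset.card_univ, Fintype.card_fin]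
    rw [e2]
  rw [h1, ContinuousMultilinearMap.map_add_univ, Finset.sum_congr rfl (fun s _ => h2 s)]
  unfold hp
  rw [← Finset.sum_fiberwise_of_maps_to (s := (Finset.univ : Finset (Finset (Fin k))))
    (t := Finset.range (k + 1)) (g := fun s => s.card)]
  · apply Finset.sum_congr rfl
    intro j _
    rw [Finset.sum_mul, Finset.sum_mul]
    apply Finset.sum_congr rfl
    intro s hs
    rw [Finset.mem_filter] at hs
    rw [hs.2]
    ring
  · intro s _
    rw [Finset.mem_range, Nat.lt_succ_iff]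
    have := Finset.card_le_univ s
    rwa [Fintype.card_fin] at this

theorem pow_isBigO {k l : ℕ} (h : l ≤ k) :
    (fun y : ℂ × ℂ => ‖y‖ ^ k) =O[𝓝 0] fun y : ℂ × ℂ => ‖y‖ ^ l := by
  apply IsBigO.of_bound 1
  have h1 : Tendsto (fun y : ℂ × ℂ => ‖y‖) (𝓝 0) (𝓝 ‖(0 : ℂ × ℂ)‖) := continuous_norm.continuousAt
  rw [norm_zero] at h1
  filter_upwards [h1.eventually (gt_mem_nhds one_pos)] with y hy
  rw [one_mul, Real.norm_of_nonneg (by positivity), Real.norm_of_nonneg (by positivity)]
  exact pow_le_pow_of_le_one (norm_nonneg y) hy.le h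

theorem t_JTAY : S_JTAY := by
  intro g k hg hgO
  obtain ⟨p, hp0⟩ := hg
  have hO : ∀ n : ℕ, (fun y : ℂ × ℂ => g y - p.partialSum n y) =O[𝓝 0] fun y => ‖y‖ ^ n := by
    intro n
    have := hp0.isBigO_sub_partialSum_pow n
    simpa only [zero_add] using this
  -- the terms of low order vanish
  have hsum : ∀ n : ℕ, (∀ j, j < n → ∀ y : ℂ × ℂ, (p j fun _ => y) = 0) →
      ∀ y : ℂ × ℂ, p.partialSum (n + 1) y = p n fun _ => y := by
    intro n hn y
    unfold FormalMultilinearSeries.partialSum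
    rw [Finset.sum_range_succ, Finset.sum_eq_zero, zero_add]
    intro j hj
    exact hn j (Finset.mem_range.mp hj) y
  have hlow : ∀ n : ℕ, n ≤ k → ∀ j, j < n → ∀ y : ℂ × ℂ, (p j fun _ => y) = 0 := by
    intro n
    induction n with
    | zero =>
      intro _ j hj
      exact absurd hj (Nat.not_lt_zero j)
    | succ n ih =>
      intro hn j hj y
      have ih' := ih (by omega)
      rcases Nat.lt_or_ge j n with h | h
      · exact ih' j h y
      · have hjn : j = n := by omega
        subst hjn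
        have h1 := hO (j + 1)
        have h2 : g =O[𝓝 0] fun y => ‖y‖ ^ (j + 1) := hgO.trans (pow_isBigO hn)
        have h3 : (fun y : ℂ × ℂ => p j fun _ => y) =O[𝓝 0] fun y => ‖y‖ ^ (j + 1) := by
          have h4 := h2.sub h1
          refine h4.congr_left ?_
          intro y
          rw [hsum j ih' y]
          ring
        exact h3.continuousMultilinearMap_apply_eq_zero y
  obtain ⟨c, hc⟩ := diag_hp k (p k)
  refine ⟨c, ?_⟩
  have h1 := hO (k + 1)
  refine h1.congr_left ?_
  intro y
  rw [hsum k (hlow k (le_refl k)) y, hc y]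

end Pool.Agent.H280.KT
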